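import Mathlib
import Pool.Agent.Lib.MP_4ffbf9_nt.MB.Main3

set_option autoImplicit false

namespace Pool.Agent.Lib.MP_4ffbf9_nt.Old.CheapLogs

open Finset Pool.Agent.Lib.MP_4ffbf9_nt.MB

/-- Lower bound for linear forms in logarithms of positive rationals in which every logarithm
that is close to zero costs `K i * (log B) ^ 2` instead of the height of the number. -/
theorem result :
    ∀ m : ℕ, ∃ c : ℝ, 0 < c ∧ ∀ (α : Fin m → ℚ) (a K : Fin m → ℝ) (b : Fin m → ℤ) (o : Fin m)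
      (N : Finset (Fin m)) (B : ℝ), (∀ i, 0 < α i) →
      (∀ i, 1 ≤ a i ∧ Real.log ((α i).num : ℝ) ≤ a i ∧ Real.log ((α i).den : ℝ) ≤ a i) →
      3 ≤ B → (∀ i, |(b i : ℝ)| ≤ B) → o ∉ N →
      (∀ i ∈ N, a i ≤ a o ∧ 1 ≤ K i ∧ |Real.log (α i : ℝ)| ≤ B * Real.exp (-(a i / K i))) →
      ∑ i, (b i : ℝ) * Real.log (α i : ℝ) ≠ 0 →
      Real.exp (-(c * (∏ i ∈ Nᶜ, a i) * (∏ i ∈ N, K i) * Real.log B ^ (2 * N.card + 2))) ≤
        |∑ i, (b i : ℝ) * Real.log (α i : ℝ)| := by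
  intro m
  obtain ⟨c, hc, h⟩ := main3 m
  refine ⟨c * 2 ^ m, by positivity, ?_⟩
  intro α a K b o N B hα ha hB hb ho hN hΛ
  have hnum : ∀ i, (((α i).num.toNat : ℕ) : ℝ) = (α i).num := fun i => by
    exact_mod_cast Int.toNat_of_nonneg (Rat.num_pos.2 (hα i)).le
  have hpos : ∀ i, 0 < (α i).num.toNat := fun i => by
    have := Rat.num_pos.2 (hα i)
    omega
  refine le_trans (Real.exp_le_exp.2 (neg_le_neg (le_of_eq ?_))) (h (Fin m)
    (fun i => (α i).num.toNat) (fun i => (α i).den) (fun i => Real.log (α i : ℝ))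
    (fun i => 2 * a i) (fun i => 2 * K i) b o N B (Fintype.card_fin m).le
    ⟨hpos, fun i => (α i).den_pos, fun i => ?_, fun i => ?_, fun i => by linarith [(ha i).1]⟩ ho hB
    hb (fun i hi => ⟨by linarith [(hN i hi).1], by linarith [(hN i hi).2.1], ?_⟩) hΛ)
  · rw [prod_mul_distrib, prod_mul_distrib, prod_const, prod_const, mul_mul_mul_comm, ← pow_add,
      card_compl_add_card, Fintype.card_fin]
    ring
  · rw [hnum, Rat.cast_def]
  · rw [Real.log_mul (by exact_mod_cast (hpos i).ne') (by exact_mod_cast (α i).den_pos.ne'), hnum]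
    linarith [(ha i).2.1, (ha i).2.2]
  · rw [mul_div_mul_left _ _ two_ne_zero]
    exact (hN i hi).2.2

end Pool.Agent.Lib.MP_4ffbf9_nt.Old.CheapLogs
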