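import Mathlib
import Pool.Agent.Lib.MP_4ffbf9_nt.Lines

set_option autoImplicit false

namespace Pool.Agent.Results.MP_4ffbf9_nt.FermatLines

open Pool.Agent.Lib.MP_4ffbf9_nt

/-- Asymptotic Fermat with coefficients for points on a line of height at most `max ^ θ`,
`θ < 1 / 3`. -/
theorem result :
    ∀ θ : ℝ, θ < 1 / 3 → ∃ n₀ : ℕ, ∀ (A B C : ℕ) (Q : ℝ), 0 < A → 0 < B → 0 < C →
      {t : ℕ × ℕ × ℕ |
        A * t.1 + B * t.2.1 = C * t.2.2 ∧
        ((Nat.gcd t.1 t.2.1 : ℝ) /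
          (∏ p ∈ (Nat.gcd t.1 t.2.1).primeFactors, (p : ℝ)) ≤ Q) ∧
        ∃ n x y z : ℕ, n₀ ≤ n ∧ 0 < x ∧ 0 < y ∧ 0 < z ∧
          t.1 = x ^ n ∧ t.2.1 = y ^ n ∧ t.2.2 = z ^ n ∧
          ∃ α β γ : ℤ, (α ≠ 0 ∨ β ≠ 0 ∨ γ ≠ 0) ∧ α * x + β * y + γ * z = 0 ∧
            (max |α| (max |β| |γ|) : ℝ) ≤ (max x (max y z) : ℝ) ^ θ}.Finite := by
  intro θ hθ
  obtain ⟨J, hJ⟩ := exists_nat_gt (1 / (1 - 3 * θ))
  have hη : 0 < 1 - 3 * θ := by linarith
  have hJ0 : (0 : ℝ) < J := lt_trans (by positivity) hJ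
  have hJ1 : 1 ≤ J := by exact_mod_cast hJ0
  have hθJ : θ * ((3 * J : ℕ) : ℝ) ≤ ((J - 1 : ℕ) : ℝ) := by
    rw [div_lt_iff₀ hη] at hJ
    push_cast [hJ1]
    linarith
  refine ⟨64 * J, fun A B D Q hA hB hD => ?_⟩
  set q := ⌈Q⌉₊ with hq
  set L := (4 * (A + B + D) ^ 2 * ((A + B) * q ^ 2) * 2 ^ (3 * (256 * J + 5) * (64 * J))) ^ 3 with hL
  refine (smooth_finite hA hB hD q L).subset ?_
  rintro ⟨X, Y, Z⟩ ⟨heq, hQ, n, x, y, z, hn, hx, hy, hz, hX, hY, hZ, α, β, γ, hne, hl, hH⟩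
  simp only at heq hQ hX hY hZ
  have hn2 : 2 ≤ n := by omega
  have hq' : Nat.gcd X Y ≤ q * ∏ p ∈ (Nat.gcd X Y).primeFactors, p := by
    have h0 : (0 : ℝ) < ∏ p ∈ (Nat.gcd X Y).primeFactors, (p : ℝ) :=
      Finset.prod_pos fun p hp => by exact_mod_cast (Nat.prime_of_mem_primeFactors hp).pos
    rw [div_le_iff₀ h0] at hQ
    have h1 := hQ.trans (mul_le_mul_of_nonneg_right (Nat.le_ceil Q) h0.le)
    rw [← Nat.cast_prod] at h1
    exact_mod_cast h1
  have hX0 : 0 < X := by rw [hX]; positivity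
  have hY0 : 0 < Y := by rw [hY]; positivity
  have hG : Nat.gcd X Y ≤ q ^ 2 := by
    have hg0 : 0 < Nat.gcd x y := Nat.gcd_pos_of_pos_left _ hx
    have h1 : Nat.gcd X Y = Nat.gcd x y ^ n := by rw [hX, hY, Nat.pow_gcd_pow]
    have h2 : ∏ p ∈ (Nat.gcd X Y).primeFactors, p ≤ Nat.gcd x y := by
      rw [h1, Nat.primeFactors_pow _ (by omega)]
      exact Nat.le_of_dvd hg0 (Nat.prod_primeFactors_dvd _)
    have h3 : Nat.gcd X Y ≤ q * Nat.gcd x y := hq'.trans (Nat.mul_le_mul_left _ h2)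
    have h4 : Nat.gcd x y * Nat.gcd x y ≤ q * Nat.gcd x y := by
      refine le_trans ?_ h3
      rw [h1, ← sq]; exact Nat.pow_le_pow_right hg0 hn2
    have h5 := Nat.le_of_mul_le_mul_right h4 hg0
    rw [sq]; exact h3.trans (Nat.mul_le_mul_left _ h5)
  set h := max x (max y z) with hh
  have hhL : h ≤ L := by
    by_contra hhL
    rw [not_le] at hhL
    have hXZ : Nat.gcd X Z ≤ (A + B) * q ^ 2 := by
      have h1 : Nat.gcd X Z ∣ B * Nat.gcd X Y := by
        rw [← Nat.gcd_mul_left]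
        refine Nat.dvd_gcd ((Nat.gcd_dvd_left _ _).mul_left _) ?_
        refine (Nat.dvd_add_right ((Nat.gcd_dvd_left X Z).mul_left A)).1 ?_
        rw [heq]; exact (Nat.gcd_dvd_right _ _).mul_left _
      exact (Nat.le_of_dvd (Nat.mul_pos hB (Nat.gcd_pos_of_pos_left _ hX0)) h1).trans
        (Nat.mul_le_mul (by omega) hG)
    have hYZ : Nat.gcd Y Z ≤ (A + B) * q ^ 2 := by
      have h1 : Nat.gcd Y Z ∣ A * Nat.gcd X Y := by
        rw [← Nat.gcd_mul_left]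
        refine Nat.dvd_gcd ?_ ((Nat.gcd_dvd_left _ _).mul_left _)
        refine (Nat.dvd_add_left ((Nat.gcd_dvd_left Y Z).mul_left B)).1 ?_
        rw [heq]; exact (Nat.gcd_dvd_right _ _).mul_left _
      exact (Nat.le_of_dvd (Nat.mul_pos hA (Nat.gcd_pos_of_pos_left _ hX0)) h1).trans
        (Nat.mul_le_mul (by omega) hG)
    have hXY : Nat.gcd X Y ≤ (A + B) * q ^ 2 := hG.trans (Nat.le_mul_of_pos_left _ (by omega))
    have hx3 : ∀ i, (![(x : ℤ), (y : ℤ), (z : ℤ)] : Fin 3 → ℤ) i ≤ (h : ℤ) := by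
      intro i
      fin_cases i
      · exact Int.ofNat_le.2 (le_max_left _ _)
      · exact Int.ofNat_le.2 (le_max_of_le_right (le_max_left _ _))
      · exact Int.ofNat_le.2 (le_max_of_le_right (le_max_right _ _))
    obtain ⟨k, hk⟩ : ∃ k, (![(x : ℤ), (y : ℤ), (z : ℤ)] : Fin 3 → ℤ) k = (h : ℤ) := by
      rcases max_choice x (max y z) with h1 | h1
      · exact ⟨0, by rw [hh, h1]; rfl⟩
      · rcases max_choice y z with h2 | h2
        · exact ⟨1, by rw [hh, h1, h2]; rfl⟩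
        · exact ⟨2, by rw [hh, h1, h2]; rfl⟩
    refine lines_false ![(x : ℤ), (y : ℤ), (z : ℤ)] ![(A : ℤ), (B : ℤ), -(D : ℤ)] ![α, β, γ]
      (V := ((A + B + D : ℕ) : ℤ)) (G := (((A + B) * q ^ 2 : ℕ) : ℤ)) (H := max |α| (max |β| |γ|))
      hJ1 hn ?_ hx3 k hk ?_ ?_ ?_ ?_ ?_ ?_ ?_ ?_ ?_
    · intro i; fin_cases i <;> simpa
    · intro i; fin_cases i <;> simp <;> omega
    · intro i; fin_cases i <;> simp <;> omega
    · have : (A : ℤ) * x ^ n + B * y ^ n = D * z ^ n := by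
        rw [hX, hY, hZ] at heq; exact_mod_cast heq
      rw [Fin.sum_univ_three]
      simp only [Matrix.cons_val_zero, Matrix.cons_val_one, Matrix.cons_val]
      linarith
    · have e : ∀ u w : ℕ, Nat.gcd (u ^ n) (w ^ n) ≤ (A + B) * q ^ 2 →
          (Int.gcd ((u : ℤ) ^ n) ((w : ℤ) ^ n) : ℤ) ≤ (((A + B) * q ^ 2 : ℕ) : ℤ) := by
        intro u w huw
        rw [← Nat.cast_pow, ← Nat.cast_pow, Int.gcd_natCast_natCast]; exact_mod_cast huw
      rw [hX, hY] at hXY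
      rw [hX, hZ] at hXZ
      rw [hY, hZ] at hYZ
      intro i j hij
      fin_cases i <;> fin_cases j
      · exact absurd rfl hij
      · exact e _ _ hXY
      · exact e _ _ hXZ
      · exact e _ _ (by rwa [Nat.gcd_comm])
      · exact absurd rfl hij
      · exact e _ _ hYZ
      · exact e _ _ (by rwa [Nat.gcd_comm])
      · exact e _ _ (by rwa [Nat.gcd_comm])
      · exact absurd rfl hij
    · intro h0
      have a0 : α = 0 := congrFun h0 0
      have a1 : β = 0 := congrFun h0 1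
      have a2 : γ = 0 := congrFun h0 2
      tauto
    · intro i
      fin_cases i
      · exact le_max_left _ _
      · exact le_max_of_le_right (le_max_left _ _)
      · exact le_max_of_le_right (le_max_right _ _)
    · rw [Fin.sum_univ_three]; exact hl
    · have h1 : (1 : ℝ) ≤ (h : ℝ) := by exact_mod_cast (le_max_of_le_left hx : 1 ≤ h)
      have h2 : ((max |α| (max |β| |γ|) : ℤ) : ℝ) ≤ (h : ℝ) ^ θ := by
        rw [hh]; push_cast; exact hH
      have h3 : ((max |α| (max |β| |γ|) : ℤ) : ℝ) ^ (3 * J) ≤ (h : ℝ) ^ (J - 1) := by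
        refine (pow_le_pow_left₀ (by exact_mod_cast le_max_of_le_left (abs_nonneg α)) h2 _).trans ?_
        rw [← Real.rpow_natCast, ← Real.rpow_mul (by linarith), ← Real.rpow_natCast]
        exact Real.rpow_le_rpow_of_exponent_le h1 hθJ
      exact_mod_cast h3
    · rw [hL] at hhL; exact_mod_cast hhL
  refine ⟨hX0, hY0, heq, hq', fun p hp hpd => le_trans ?_ hhL⟩
  rcases hpd with hpd | hpd | hpd
  · rw [hX] at hpd
    exact (Nat.le_of_dvd hx (hp.dvd_of_dvd_pow hpd)).trans (le_max_left _ _)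
  · rw [hY] at hpd
    exact (Nat.le_of_dvd hy (hp.dvd_of_dvd_pow hpd)).trans (le_max_of_le_right (le_max_left _ _))
  · rw [hZ] at hpd
    exact (Nat.le_of_dvd hz (hp.dvd_of_dvd_pow hpd)).trans (le_max_of_le_right (le_max_right _ _))

end Pool.Agent.Results.MP_4ffbf9_nt.FermatLines
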