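import Mathlib
import Pool.Agent.Lib.MP_4ffbf9_nt.Sep

set_option autoImplicit false

namespace Pool.Agent.Results.MP_4ffbf9_nt.GapRunge

open Filter Finset Pool.Agent.Lib.MP_4ffbf9_nt

theorem card_sub_one_nonneg {n : ℕ} (hn : 0 < n) (o : Fin n → ℕ) :
    0 ≤ (((univ.image o).card : ℝ) - 1) / n :=
  div_nonneg (sub_nonneg.2 (by
    exact_mod_cast card_pos.2 ⟨o ⟨0, hn⟩, mem_image_of_mem o (mem_univ _)⟩)) (Nat.cast_nonneg _)

theorem shape_finite {A D n m d : ℕ} (hA : 0 < A) (hD : 0 < D) (hn : 0 < n) (hdn : d ∣ n) {β : ℚ}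
    (hβ0 : 0 < β) (hβ : A * β ^ d = D) {ε : ℝ} (hε : 0 < ε) (o : Fin n → ℕ) (o' : Fin m → ℕ) :
    {q : ℕ × ℕ | (0 < m ∧ d ∣ m) ∧ A * ∏ i, (q.1 + o i) ≠ D * ∏ i, (q.2 + o' i) ∧ 0 < q.2 ∧
      |(A : ℝ) * (∏ i, (q.1 + o i) : ℕ) - D * (∏ i, (q.2 + o' i) : ℕ)| ≤
        ((∏ i, (q.2 + o' i) : ℕ) : ℝ) ^ (1 - 1 / (d : ℝ) - (((univ.image o).card : ℝ) - 1) / n -
          (((univ.image o').card : ℝ) - 1) / m - ε)}.Finite := by
  by_cases h : 0 < m ∧ d ∣ m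
  swap
  · exact Set.finite_empty.subset fun q hq => h hq.1
  refine finite_of_eventually_false (fun b => (fibre_finite (D := D) hA hn o o'
    (θ := 1 - 1 / (d : ℝ) - (((univ.image o).card : ℝ) - 1) / n -
      (((univ.image o').card : ℝ) - 1) / m - ε) ?_ b).subset fun q hq => ⟨hq.1.2.2, hq.2⟩)
    fun l hl ht => fixed_false hA hD hn h.1 o o' hε ht (n + 1) d β (by omega) hdn h.2 hβ0 hβ
      (hl.mono fun q hq => ⟨hq.2.1, hq.2.2.2⟩)
  have h1 := card_sub_one_nonneg hn o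
  have h2 := card_sub_one_nonneg h.1 o'
  have h3 : (0 : ℝ) ≤ 1 / d := by positivity
  linarith

/-- Gap theorem under the condition of Runge: the first product has fixed degree, the degree of
the second product is unrestricted. -/
theorem result :
    ∀ (A C n d S : ℕ) (β : ℚ) (ε : ℝ), 0 < A → 0 < C → 0 < n → d ∣ n →
      (A : ℚ) * β ^ d = C → 0 < ε →
      {t : ℕ × ℕ | A * t.1 ≠ C * t.2 ∧
        ∃ (m : ℕ) (x : Fin n → ℕ) (z : Fin m → ℕ), 0 < m ∧ d ∣ m ∧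
          (∀ i, 0 < x i) ∧ (∀ i, 0 < z i) ∧
          (∀ i j, x i ≤ x j + S) ∧ (∀ i j, z i ≤ z j + S) ∧
          (∏ i, x i) = t.1 ∧ (∏ i, z i) = t.2 ∧
          |(A : ℝ) * t.1 - C * t.2| ≤ (t.2 : ℝ) ^
            (1 - 1 / (d : ℝ) - (((Finset.univ.image x).card : ℝ) - 1) / n -
              (((Finset.univ.image z).card : ℝ) - 1) / m - ε)}.Finite := by
  intro A D n d S β ε hA hD hn hdn hβ hε
  have hd : 0 < d := Nat.pos_of_dvd_of_pos hdn hn
  have hβ1 : (A : ℚ) * |β| ^ d = D := by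
    rw [← abs_pow, ← Nat.abs_cast A, ← abs_mul, hβ, Nat.abs_cast]
  have hβ0 : 0 < |β| := abs_pos.2 fun h => by
    rw [h, zero_pow hd.ne', mul_zero] at hβ
    exact hD.ne (by exact_mod_cast hβ)
  obtain ⟨d, rfl⟩ : ∃ d', d = d' + 1 := ⟨d - 1, by omega⟩
  obtain ⟨a, ha⟩ := id hdn
  choose m₀ hm₀ using fun o : Fin n → Fin (S + 1) => long_false hA hD
    (Nat.pos_of_ne_zero fun h => by rw [h] at ha; omega) (ha.trans (mul_comm _ _)) S
    (fun i => (o i : ℕ)) hε hβ0 hβ1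
  obtain ⟨Z₀, hZ₀⟩ := eventually_atTop.1 (eventually_all.2 hm₀)
  refine (((Set.finite_Iic ((D + 1) * Z₀)).prod (Set.finite_Iic Z₀)).union
    (Set.finite_iUnion fun o : Fin n → Fin (S + 1) => Set.finite_iUnion fun m : Fin (∑ o, m₀ o) =>
      Set.finite_iUnion fun o' : Fin m → Fin (S + 1) =>
        (shape_finite hA hD hn hdn hβ0 hβ1 hε (fun i => o i) (fun i => o' i)).image
          fun q : ℕ × ℕ => (∏ i, (q.1 + (o i : ℕ)), ∏ i, (q.2 + (o' i : ℕ))))).subset ?_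
  rintro ⟨X, Z⟩ ⟨hne, m, x, z, hm, hdm, hx, hz, hxS, hzS, hX, hZ, h⟩
  obtain ⟨b, o, -, hxo, hc⟩ := exists_shape hn x hx hxS
  have e1 : ∏ i, (b + o i) = X := (prod_congr rfl fun i _ => (hxo i).symm).trans hX
  by_cases hlong : m < ∑ o, m₀ o
  · obtain ⟨b', o', hb', hzo, hc'⟩ := exists_shape hm z hz hzS
    have e2 : ∏ i, (b' + o' i) = Z := (prod_congr rfl fun i _ => (hzo i).symm).trans hZ
    refine Or.inr (Set.mem_iUnion.2 ⟨o, Set.mem_iUnion.2 ⟨⟨m, hlong⟩, Set.mem_iUnion.2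
      ⟨o', (b, b'), ?_, Prod.ext e1 e2⟩⟩⟩)
    simp only [Set.mem_ofPred_eq, e1, e2, ← hc, ← hc']
    exact ⟨⟨hm, hdm⟩, hne, hb', h⟩
  · simp only at hne hZ h
    have hZ1 : (1 : ℝ) ≤ Z := by rw [← hZ]; exact_mod_cast one_le_prod' fun i _ => hz i
    have h1 := card_sub_one_nonneg hn x
    have h2 := card_sub_one_nonneg hm z
    have h3 : (0 : ℝ) ≤ 1 / ((d + 1 : ℕ) : ℝ) := by positivity
    have hZ2 : Z ≤ Z₀ := by
      by_contra h4
      refine hZ₀ Z (not_le.1 h4).le o b m z ((single_le_sum (f := m₀) (fun _ _ => Nat.zero_le _)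
        (mem_univ o)).trans (not_lt.1 hlong)) hdm hz hzS hZ (by rwa [e1]) ?_
      rw [e1, ← hc]
      exact h.trans (Real.rpow_le_rpow_of_exponent_le hZ1 (by linarith))
    have h5 := (le_abs_self _).trans (h.trans
      (Real.rpow_le_rpow_of_exponent_le hZ1 (show _ ≤ (1 : ℝ) by linarith)))
    rw [Real.rpow_one] at h5
    have h6 : A * X ≤ (D + 1) * Z := by
      have : (A : ℝ) * X ≤ (D + 1) * Z := by linarith
      exact_mod_cast this
    exact Or.inl ⟨((Nat.le_mul_of_pos_left X hA).trans h6).trans (Nat.mul_le_mul_left _ hZ2), hZ2⟩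

end Pool.Agent.Results.MP_4ffbf9_nt.GapRunge
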