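import Mathlib
import Pool.Agent.Lib.MP_4ffbf9_nt.SP.Fin

set_option autoImplicit false

namespace Pool.Agent.Results.MP_4ffbf9_nt.NearDiagonal

/-- For `A X + B Y = C Z` in almost perfect `n`-th powers, `n` large, the three roots are far
apart; in particular the largest root exceeds every fixed power of `n`. -/
theorem result :
    ∀ (ε Q : ℝ) (A B C : ℕ), 0 < ε → 0 < A → 0 < B → 0 < C → ∃ n₀ : ℕ,
      ∀ (X Y Z n a b c x y z : ℕ), 0 < X → 0 < Y → 0 < Z → A * X + B * Y = C * Z →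
        (Nat.gcd X Y : ℝ) / (∏ l ∈ (Nat.gcd X Y).primeFactors, (l : ℝ)) ≤ Q →
        n₀ ≤ n → X = a * x ^ n → Y = b * y ^ n → Z = c * z ^ n →
        (a : ℝ) ≤ Real.exp ((n : ℝ) ^ (1 - ε)) → (b : ℝ) ≤ Real.exp ((n : ℝ) ^ (1 - ε)) →
        (c : ℝ) ≤ Real.exp ((n : ℝ) ^ (1 - ε)) → 2 ≤ max x (max y z) →
        (n : ℝ) * ((max x (max y z) : ℕ) : ℝ) ^ (1 - ε) <
          ((max x (max y z) : ℕ) : ℝ) - ((min x (min y z) : ℕ) : ℝ) := by
  intro ε Q A B C hε hA hB hC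
  obtain ⟨n0, h⟩ := Pool.Agent.Lib.MP_4ffbf9_nt.SP.thmH ε hε A B C Q hA hB hC
  refine ⟨n0 + 1, ?_⟩
  rintro X Y Z n a b c x y z hX hY hZ heq hQ hn rfl rfl rfl ea eb ec h2
  have p : ∀ u v : ℕ, 0 < u * v ^ n → 0 < v := fun u v h =>
    Nat.pos_of_ne_zero fun h0 => by rw [h0, zero_pow (by omega), mul_zero] at h; omega
  exact h n a b c x y z (by omega) (Nat.pos_of_mul_pos_right hX) (Nat.pos_of_mul_pos_right hY)
    (Nat.pos_of_mul_pos_right hZ) (p _ _ hX) (p _ _ hY) (p _ _ hZ) ea eb ec heq hQ h2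

end Pool.Agent.Results.MP_4ffbf9_nt.NearDiagonal
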